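import Mathlib
import Pool.Agent.X115.Dec.Fin

/-!
# Lehmer's problem for decomposable polynomials

Let `f` be an integer polynomial which is a composition `f = g ∘ h` of rational polynomials, where
`h` is not of the form `a X ^ k + b` and `g` has no rational zero. Then, with the golden ratio `φ`,

  `M(f) ≥ φ ^ (deg g / 2) * |a f(0)| ^ ((5 - √5) / 10)`,   `a` the leading coefficient of `f`.

In particular this holds if `f` is irreducible, `deg g ≥ 2` and `h` is not of the form `a X ^ k + b`,
and then `M(f) ≥ φ = 1.618…`. So every irreducible integer polynomial `f` with `M(f) < φ` is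
`F(X ^ k)` for an irreducible polynomial `F` with the same Mahler measure which is indecomposable
(over the rational numbers): Lehmer's problem is reduced to indecomposable polynomials. The constant
`φ ^ (deg g / 2)` is the best possible for every even degree of `g`.

Method. For a zero `b` of `g` compare `P = h - b` (monic, `h(0) = 0` without loss of generality)
with its conjugate reciprocal polynomial `P*`. All coefficients of `P` but the last one are rational,
so that the first nonzero coefficient of `P - P(0) P*` is `u + b v` with rational `u, v` which are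
not both zero: no complex conjugation occurs, although the field of `b` is neither totally
real nor a CM field. By the coefficient inequality for bounded analytic functions
`|u + b v| ≤ ∏ max(1, |α|)² - ∏ min(1, |α|)²` over the zeros `α` of `h - b`. The product of the
`u + b v` over all zeros `b` of `g`, times `a ^ 2`, is a nonzero integer; the weighted inequality of
the arithmetic and geometric means with the weights `1/φ`, `1/φ²` gives the theorem.
-/

set_option autoImplicit false

open Polynomial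

namespace Pool.Agent.Results.MP_7ab245_nt.DecomposablePolynomials

lemma golden_factor : ((X ^ 2 + X - 1 : ℤ[X]).map (Int.castRingHom ℂ)) =
    (X + C (Real.goldenRatio : ℂ)) * (X + C (Real.goldenConj : ℂ)) := by
  have h1 : (Real.goldenRatio : ℂ) + (Real.goldenConj : ℂ) = 1 := by
    exact_mod_cast Real.goldenRatio_add_goldenConj
  have h2 : (Real.goldenRatio : ℂ) * (Real.goldenConj : ℂ) = -1 := by
    exact_mod_cast Real.goldenRatio_mul_goldenConj
  have h3 : (X + C (Real.goldenRatio : ℂ)) * (X + C (Real.goldenConj : ℂ)) =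
      X ^ 2 + C ((Real.goldenRatio : ℂ) + (Real.goldenConj : ℂ)) * X +
        C ((Real.goldenRatio : ℂ) * (Real.goldenConj : ℂ)) := by
    rw [C_add, C_mul]; ring
  rw [h3, h1, h2]
  simp
  ring

lemma golden_measure :
    ((X ^ 2 + X - 1 : ℤ[X]).map (Int.castRingHom ℂ)).mahlerMeasure = Real.goldenRatio := by
  rw [golden_factor, mahlerMeasure_mul, mahlerMeasure_X_add_C, mahlerMeasure_X_add_C,
    Complex.norm_real, Complex.norm_real, Real.norm_of_nonneg Real.goldenRatio_pos.le,
    max_eq_right Real.one_lt_goldenRatio.le, Real.norm_eq_abs, abs_of_neg Real.goldenConj_neg,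
    max_eq_left (by linarith [Real.neg_one_lt_goldenConj]), mul_one]

lemma five_measure :
    ((X ^ 4 + X ^ 3 + X ^ 2 + X + 1 : ℤ[X]).map (Int.castRingHom ℂ)).mahlerMeasure = 1 := by
  have h1 : (X ^ 4 + X ^ 3 + X ^ 2 + X + 1 : ℤ[X]) = cyclotomic 5 ℤ := by
    haveI : Fact (Nat.Prime 5) := ⟨by norm_num⟩
    rw [cyclotomic_prime]
    simp only [Finset.sum_range_succ, Finset.sum_range_zero]
    ring
  rw [h1]
  exact cyclotomic_mahlerMeasure_eq_one (R := ℤ) 5

lemma golden_no_root (r : ℚ) : (X ^ 2 + X - 1 : ℚ[X]).eval r ≠ 0 := by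
  intro h
  simp only [eval_sub, eval_add, eval_pow, eval_X, eval_one] at h
  have h1 : (r : ℝ) ^ 2 + r - 1 = 0 := by exact_mod_cast h
  have h2 : ((r : ℝ) + Real.goldenRatio) * (r + Real.goldenConj) = 0 := by
    have e1 := Real.goldenRatio_add_goldenConj
    have e2 := Real.goldenRatio_mul_goldenConj
    linear_combination h1 + r * e1 + e2
  rcases mul_eq_zero.1 h2 with h3 | h3
  · apply Real.goldenRatio_irrational
    exact ⟨-r, by push_cast; linarith⟩
  · apply Real.goldenConj_irrational
    exact ⟨-r, by push_cast; linarith⟩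

/-- the constant is the best possible -/
lemma sharp (n : ℕ) : ∃ (f : ℤ[X]) (g h : ℚ[X]), f.map (Int.castRingHom ℚ) = g.comp h ∧
    (∀ r : ℚ, g.eval r ≠ 0) ∧ (∃ i, 0 < i ∧ i < h.natDegree ∧ h.coeff i ≠ 0) ∧
    g.natDegree = 2 * n ∧ (f.map (Int.castRingHom ℂ)).mahlerMeasure = Real.goldenRatio ^ n := by
  refine ⟨((X ^ 2 + X - 1) * (X ^ 4 + X ^ 3 + X ^ 2 + X + 1)) ^ n, (X ^ 2 + X - 1) ^ n,
    X ^ 3 + X ^ 2, ?_, ?_, ⟨2, by norm_num, ?_, ?_⟩, ?_, ?_⟩
  · rw [pow_comp, Polynomial.map_pow]
    congr 1
    simp only [Polynomial.map_mul, Polynomial.map_add, Polynomial.map_sub, Polynomial.map_pow,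
      map_X, Polynomial.map_one, sub_comp, add_comp, pow_comp, X_comp, one_comp]
    ring
  · intro r
    rw [eval_pow]
    exact pow_ne_zero _ (golden_no_root r)
  · have : (X ^ 3 + X ^ 2 : ℚ[X]).natDegree = 3 := by compute_degree!
    rw [this]; norm_num
  · simp [coeff_X_pow]
  · have : (X ^ 2 + X - 1 : ℚ[X]).natDegree = 2 := by compute_degree!
    rw [natDegree_pow, this, mul_comm]
  · have h1 := Pool.Agent.X115.Dec.M_pow ((X ^ 2 + X - 1) * (X ^ 4 + X ^ 3 + X ^ 2 + X + 1)) n
    rw [Pool.Agent.X115.Dec.M_mul] at h1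
    unfold Pool.Agent.X115.Dec.M at h1
    rw [h1, golden_measure, five_measure, mul_one]

/-- **Lehmer's problem for decomposable polynomials.** -/
theorem result :
    -- the lower bound for compositions
    (∀ (f : ℤ[X]) (g h : ℚ[X]), f.map (Int.castRingHom ℚ) = g.comp h →
      (∀ r : ℚ, g.eval r ≠ 0) → (∃ i, 0 < i ∧ i < h.natDegree ∧ h.coeff i ≠ 0) →
      Real.goldenRatio ^ ((g.natDegree : ℝ) / 2) *
          |(f.leadingCoeff : ℝ) * (f.coeff 0 : ℝ)| ^ ((5 - Real.sqrt 5) / 10) ≤
        (f.map (Int.castRingHom ℂ)).mahlerMeasure) ∧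
    -- irreducible compositions
    (∀ (f : ℤ[X]) (g h : ℚ[X]), Irreducible f → f.map (Int.castRingHom ℚ) = g.comp h →
      2 ≤ g.natDegree → (∃ i, 0 < i ∧ i < h.natDegree ∧ h.coeff i ≠ 0) →
      Real.goldenRatio ^ ((g.natDegree : ℝ) / 2) ≤ (f.map (Int.castRingHom ℂ)).mahlerMeasure) ∧
    -- the reduction to indecomposable polynomials
    (∀ f : ℤ[X], Irreducible f → (f.map (Int.castRingHom ℂ)).mahlerMeasure < Real.goldenRatio →
      ∃ (k : ℕ) (F : ℤ[X]), 0 < k ∧ f = expand ℤ k F ∧ Irreducible F ∧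
        (F.map (Int.castRingHom ℂ)).mahlerMeasure = (f.map (Int.castRingHom ℂ)).mahlerMeasure ∧
        ∀ g h : ℚ[X], F.map (Int.castRingHom ℚ) = g.comp h → g.natDegree ≤ 1 ∨ h.natDegree ≤ 1) ∧
    -- the constant is the best possible
    (∀ n : ℕ, ∃ (f : ℤ[X]) (g h : ℚ[X]), f.map (Int.castRingHom ℚ) = g.comp h ∧
      (∀ r : ℚ, g.eval r ≠ 0) ∧ (∃ i, 0 < i ∧ i < h.natDegree ∧ h.coeff i ≠ 0) ∧
      g.natDegree = 2 * n ∧ (f.map (Int.castRingHom ℂ)).mahlerMeasure = Real.goldenRatio ^ n) := by
  refine ⟨fun f g h hfg hg hi => Pool.Agent.X115.Dec.main f g h hfg hg hi, ?_, ?_, sharp⟩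
  · intro f g h hf hfg hgd hi
    have hhd : 1 ≤ h.natDegree := by
      obtain ⟨i, h1, h2, h3⟩ := hi
      omega
    exact Pool.Agent.X115.Dec.main' f g h hfg (Pool.Agent.X115.Dec.no_root hf hfg hgd hhd) hi
  · intro f hf hM
    exact Pool.Agent.X115.Dec.structure_thm f.natDegree f rfl hf hM

end Pool.Agent.Results.MP_7ab245_nt.DecomposablePolynomials
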