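import Pool.Agent.W242.IM.Final

/-!
# Lehmer's problem for Hermitian block matrices: the deletion theorem

For a Hermitian matrix `A` of size `m` let `M(A)` be the Mahler measure of `z ^ m χ_A(z + 1/z)`.
Fix `k` and consider the Hermitian matrices `A` of `k × k` blocks, with any number `n` of rows of
blocks, all of whose principal submatrices made of blocks have integral characteristic polynomials
(`k = 1`: integer symmetric matrices, Hermitian matrices over imaginary quadratic integers).

There is a constant `C = C(k)` such that for every such `A` one can delete at most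
`C * M(A) ^ 2 * log M(A)` rows of blocks (and the same columns) so that the remaining matrix has
measure `1`, i.e. all eigenvalues in `[-2, 2]`. In particular `A` has at most
`2 k C * M(A) ^ 2 * log M(A)` eigenvalues outside `[-2, 2]`.

If `C * M(A) ^ 2 * log M(A) < 1` then nothing is deleted, so `M(A) = 1`: the theorem contains
Lehmer's conjecture for the class.  The bounds are linear in `log M(A)` for bounded `M(A)`.  For
general integer polynomials the number of zeros outside the unit circle is not bounded in terms of the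
Mahler measure (`1 + X + X ^ n`).
-/

set_option autoImplicit false
set_option linter.unusedSectionVars false

namespace Pool.Agent.Results.MP_7ab245_nt.DeletionTheorem

open Polynomial

noncomputable section

/-- The polynomial `z ^ n p(z + 1/z)` for a polynomial `p` of degree `n`. -/
def reciprocalOf (p : ℂ[X]) : ℂ[X] :=
  ∑ k ∈ Finset.range (p.natDegree + 1), C (p.coeff k) * (X ^ 2 + 1) ^ k * X ^ (p.natDegree - k)

/-- The Mahler measure of `z ^ n p(z + 1/z)`. -/
def traceMeasure (p : ℂ[X]) : ℝ := (reciprocalOf p).mahlerMeasure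

/-- The principal submatrix of a matrix of `k × k` blocks with the blocks in `U`. -/
def blocks {n k : ℕ} (A : Matrix (Fin n × Fin k) (Fin n × Fin k) ℂ) (U : Finset (Fin n)) :
    Matrix (U × Fin k) (U × Fin k) ℂ :=
  A.submatrix (fun x => (x.1.1, x.2)) (fun x => (x.1.1, x.2))

/-- All principal submatrices made of blocks have a characteristic polynomial with integer
coefficients. -/
def Integral {n k : ℕ} (A : Matrix (Fin n × Fin k) (Fin n × Fin k) ℂ) : Prop :=
  ∀ U : Finset (Fin n), ∃ P : ℤ[X], P.map (Int.castRingHom ℂ) = (blocks A U).charpoly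

section core

open Pool.Agent.W242.IM

/-- the deletion theorem with explicit dependence on the measure -/
theorem deletion_unif (k : ℕ) : ∃ (δ : ℝ) (N : ℕ), 0 < δ ∧ ∀ (ι B : Type) [Fintype ι]
    [DecidableEq ι] [Fintype B] [DecidableEq B] (A : Matrix ι ι ℂ) (β : ι → B),
    A.IsHermitian → (∀ b, (pre β {b}).card ≤ k) → (∀ U, Itg A (pre β U)) →
      ∃ S : Finset B, S.card ≤ ⌊mp A.charpoly / δ⌋₊ * N *
          (1 + ⌊1 + 8 * k * Real.exp (2 * mp A.charpoly)⌋₊) ∧
        mp (cp A (pre β (Finset.univ \ S))) = 0 := by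
  classical
  obtain ⟨δ, N, hδ, h⟩ := size_bound_block k
  refine ⟨δ, N, hδ, fun ι B _ _ _ _ A β hA hk hI => ?_⟩
  set m := mp A.charpoly with hm
  have hb : mp A.charpoly ≤ m := le_rfl
  set good : Finset (Finset (Finset B)) := Finset.univ.filter fun F =>
    SepB A β F ∧ ∀ U ∈ F, U.card ≤ N ∧ δ ≤ mp (cp A (pre β U)) with hgood
  have hne : good.Nonempty := by
    refine ⟨∅, ?_⟩
    rw [hgood, Finset.mem_filter]
    refine ⟨Finset.mem_univ _, ?_, ?_⟩
    · intro U hU
      exact absurd hU (Finset.notMem_empty U)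
    · intro U hU
      exact absurd hU (Finset.notMem_empty U)
  obtain ⟨F, hF, hmax⟩ := Finset.exists_max_image good Finset.card hne
  rw [hgood, Finset.mem_filter] at hF
  obtain ⟨-, hsep, hFU⟩ := hF
  have hcard : (F.card : ℝ) * δ ≤ m := by
    have h1 := mp_sum_block hA β F hsep
    have h2 : (F.card : ℝ) * δ ≤ ∑ U ∈ F, mp (cp A (pre β U)) := by
      rw [← nsmul_eq_mul]
      exact Finset.card_nsmul_le_sum F _ δ (fun U hU => (hFU U hU).2)
    have h3 := mp_mono hA (Finset.subset_univ (pre β (F.biUnion id)))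
    rw [mp_univ] at h3
    linarith
  have hFcard : F.card ≤ ⌊m / δ⌋₊ := by
    apply Nat.le_floor
    rw [le_div_iff₀ hδ]
    exact hcard
  set W := F.biUnion id with hW
  have hWcard : W.card ≤ ⌊m / δ⌋₊ * N := by
    calc W.card ≤ ∑ U ∈ F, (id U).card := Finset.card_biUnion_le
      _ ≤ ∑ U ∈ F, N := Finset.sum_le_sum fun U hU => (hFU U hU).1
      _ = F.card * N := by rw [Finset.sum_const, smul_eq_mul]
      _ ≤ ⌊m / δ⌋₊ * N := Nat.mul_le_mul_right N hFcard
  set D := ⌊1 + 8 * k * Real.exp (2 * m)⌋₊ with hD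
  set S := W ∪ W.biUnion (nbr A β) with hS
  have hdeg : ∀ b, (nbr A β b).card ≤ D := by
    intro b
    apply Nat.le_floor
    exact nbr_card hA β hI k hk m hb b
  have hScard : S.card ≤ ⌊m / δ⌋₊ * N * (1 + D) := by
    calc S.card ≤ W.card + (W.biUnion (nbr A β)).card :=
          Finset.card_union_le _ _
      _ ≤ W.card + W.card * D := by
          refine Nat.add_le_add_left ?_ _
          exact Finset.card_biUnion_le_card_mul _ _ _ fun i _ => hdeg i
      _ = W.card * (1 + D) := by ring
      _ ≤ ⌊m / δ⌋₊ * N * (1 + D) := Nat.mul_le_mul_right _ hWcard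
  refine ⟨S, hScard, ?_⟩
  by_contra hcon
  obtain ⟨V, hV, hVN, hVδ⟩ := h ι B A β hA hk hI _ hcon
  have hVS : ∀ v ∈ V, v ∉ S := fun v hv => (Finset.mem_sdiff.mp (hV hv)).2
  have hVF : V ∉ F := by
    intro hVF
    have hVe : V = ∅ := by
      rw [Finset.eq_empty_iff_forall_notMem]
      intro v hv
      exact hVS v hv (Finset.mem_union_left _ (Finset.mem_biUnion.mpr ⟨V, hVF, hv⟩))
    rw [hVe, pre_empty, mp_empty A hA] at hVδ
    linarith
  have hnew : insert V F ∈ good := by
    rw [hgood, Finset.mem_filter]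
    refine ⟨Finset.mem_univ _, ?_, ?_⟩
    · have key : ∀ U ∈ F, Disjoint U V ∧ ∀ i, β i ∈ U → ∀ j, β j ∈ V → A i j = 0 := by
        intro U hU
        constructor
        · rw [Finset.disjoint_left]
          intro i hiU hiV
          exact hVS i hiV (Finset.mem_union_left _ (Finset.mem_biUnion.mpr ⟨U, hU, hiU⟩))
        · intro i hi j hj
          refine crs_zero (b := β i) (c := β j) (β := β) ?_ i j rfl rfl
          by_contra hne
          refine hVS (β j) hj (Finset.mem_union_right _ (Finset.mem_biUnion.mpr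
            ⟨β i, Finset.mem_biUnion.mpr ⟨U, hU, hi⟩, ?_⟩))
          exact Finset.mem_filter.mpr ⟨Finset.mem_univ _, hne⟩
      intro U hU U' hU' hne
      rcases Finset.mem_insert.mp hU with hU1 | hU1 <;>
        rcases Finset.mem_insert.mp hU' with hU2 | hU2
      · exact absurd (hU1.trans hU2.symm) hne
      · subst hU1
        refine ⟨(key U' hU2).1.symm, fun i hi j hj => ?_⟩
        have h1 := (key U' hU2).2 j hj i hi
        rw [← hA.apply i j, h1, star_zero]
      · subst hU2
        exact key U hU1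
      · exact hsep U hU1 U' hU2 hne
    · intro U hU
      rcases Finset.mem_insert.mp hU with hU1 | hU1
      · subst hU1
        exact ⟨hVN, hVδ⟩
      · exact hFU U hU1
  have := hmax _ hnew
  rw [Finset.card_insert_of_notMem hVF] at this
  omega

variable {ι : Type} [Fintype ι] [DecidableEq ι]

/-- at most `card Uᶜ` eigenvalues of `A` are at least `μ > 2` if the submatrix on `U` is
cyclotomic -/
theorem count_ge {Q : (ι → ℂ) → ℝ} {l : ι → ℝ}
    (hQ : SD Q l) (U : Finset ι) {lU : U → ℝ} {QU : (U → ℂ) → ℝ} (hQU : SD QU lU)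
    (hext : ∀ x : U → ℂ, Q (Function.extend (Subtype.val : U → ι) x 0) = QU x)
    (h0 : ∀ j, lU j ≤ 2) (μ : ℝ) (hμ : 2 < μ) :
    (Finset.univ.filter fun j => μ ≤ l j).card ≤ Uᶜ.card := by
  have hmain := count_le hQU hQ (LinearMap.funLeft ℂ ℂ (Subtype.val : U → ι))
    (F := (Uᶜ : Finset ι) → ℂ) (LinearMap.funLeft ℂ ℂ (Subtype.val : (Uᶜ : Finset ι) → ι))
    (fun x hx => ?_) μ
  · have h1 : (Finset.univ.filter fun i => μ ≤ lU i).card = 0 := by
      rw [Finset.card_eq_zero, Finset.filter_eq_empty_iff]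
      intro j _ hj
      have := h0 j
      linarith
    rw [h1, Module.finrank_fintype_fun_eq_card, Fintype.card_coe, zero_add] at hmain
    exact hmain
  · have h1 : Function.extend (Subtype.val : U → ι) (fun i : U => x i) (0 : ι → ℂ) = x := by
      funext i
      by_cases hi : i ∈ U
      · exact Subtype.val_injective.extend_apply (fun i : U => x i) (0 : ι → ℂ) ⟨i, hi⟩
      · rw [Function.extend_apply' (f := (Subtype.val : U → ι)) _ (0 : ι → ℂ) i
          (by rintro ⟨a, ha⟩; exact hi (ha ▸ a.2))]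
        exact (congrFun hx ⟨i, Finset.mem_compl.mpr hi⟩).symm
    have h2 := nsq_extend (Subtype.val : U → ι) Subtype.val_injective (fun i : U => x i)
    have h3 := hext (fun i : U => x i)
    rw [h1] at h2 h3
    exact ⟨h2.symm, h3.symm⟩

theorem count_gt {Q : (ι → ℂ) → ℝ} {l : ι → ℝ}
    (hQ : SD Q l) (U : Finset ι) {lU : U → ℝ} {QU : (U → ℂ) → ℝ} (hQU : SD QU lU)
    (hext : ∀ x : U → ℂ, Q (Function.extend (Subtype.val : U → ι) x 0) = QU x)
    (h0 : ∀ j, lU j ≤ 2) :
    (Finset.univ.filter fun j => 2 < l j).card ≤ Uᶜ.card := by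
  classical
  rcases (Finset.univ.filter fun j => 2 < l j).eq_empty_or_nonempty with he | hne
  · rw [he]
    simp
  · obtain ⟨j, hj, hmin⟩ := Finset.exists_min_image _ l hne
    have hj2 : 2 < l j := (Finset.mem_filter.mp hj).2
    refine le_trans (Finset.card_le_card ?_) (count_ge hQ U hQU hext h0 (l j) hj2)
    intro i hi
    exact Finset.mem_filter.mpr ⟨Finset.mem_univ _, hmin i hi⟩

theorem count_out (A : Matrix ι ι ℂ) (hA : A.IsHermitian) (U : Finset ι)
    (h0 : mp (cp A U) = 0) :
    (Finset.univ.filter fun j => 2 < |hA.eigenvalues j|).card ≤ 2 * Uᶜ.card := by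
  classical
  have hU := sd_of_hermitian (sm_hermitian hA U)
  have hQ := sd_of_hermitian hA
  have hev : ∀ j, |(sm_hermitian hA U).eigenvalues j| ≤ 2 :=
    (mp_eq_zero_iff (sm_hermitian hA U)).mp h0
  have hext : ∀ x : U → ℂ, qf A (Function.extend (Subtype.val : U → ι) x 0) = qf (sm A U) x :=
    fun x => qf_extend (Subtype.val : U → ι) Subtype.val_injective x A
  have h1 := count_gt hQ U hU hext (fun j => (abs_le.mp (hev j)).2)
  have h2 := count_gt hQ.neg U hU.neg (fun x => by rw [hext]) (fun j => by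
    have := (abs_le.mp (hev j)).1
    linarith)
  have h3 : (Finset.univ.filter fun j => 2 < |hA.eigenvalues j|) ⊆
      (Finset.univ.filter fun j => 2 < hA.eigenvalues j) ∪
        (Finset.univ.filter fun j => 2 < -hA.eigenvalues j) := by
    intro j hj
    rw [Finset.mem_filter] at hj
    rw [Finset.mem_union, Finset.mem_filter, Finset.mem_filter]
    rcases lt_abs.mp hj.2 with h | h
    · exact Or.inl ⟨Finset.mem_univ _, h⟩
    · exact Or.inr ⟨Finset.mem_univ _, h⟩
  have h4 := (Finset.card_le_card h3).trans (Finset.card_union_le _ _)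
  omega

end core

/-- For every `k` there is `C > 0` such that every Hermitian matrix `A` of `k × k` blocks with
integral principal block submatrices has a set `S` of at most `C M(A) ^ 2 log M(A)` block indices
whose deletion leaves a matrix of measure `1`, and at most `2 k |S|` eigenvalues of `A` lie outside
`[-2, 2]`. -/
theorem result (k : ℕ) : ∃ C : ℝ, 0 < C ∧
    ∀ (n : ℕ) (A : Matrix (Fin n × Fin k) (Fin n × Fin k) ℂ) (hA : A.IsHermitian), Integral A →
      ∃ S : Finset (Fin n),
        (S.card : ℝ) ≤ C * traceMeasure A.charpoly ^ 2 * Real.log (traceMeasure A.charpoly) ∧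
        traceMeasure (blocks A Sᶜ).charpoly = 1 ∧
        (Finset.univ.filter fun j => 2 < |hA.eigenvalues j|).card ≤ 2 * (k * S.card) := by
  classical
  obtain ⟨δ, N, hδ, h⟩ := deletion_unif k
  refine ⟨(N + 1) * (2 + 8 * k) / δ, by positivity, fun n A hA hI => ?_⟩
  obtain ⟨h1, h2, h3⟩ := Pool.Agent.W242.IM.block_hyp hI
  obtain ⟨S, hS, h5⟩ := h _ _ A Prod.fst hA h1 h2
  have hMM : traceMeasure A.charpoly = Real.exp (Pool.Agent.W242.IM.mp A.charpoly) :=
    Pool.Agent.W242.IM.MM_charpoly h3
  set m := Pool.Agent.W242.IM.mp A.charpoly with hm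
  have hm0 : 0 ≤ m := by
    have := Pool.Agent.W242.IM.cp_nonneg hA Finset.univ
    rw [Pool.Agent.W242.IM.mp_univ] at this
    exact this
  refine ⟨S, ?_, ?_, ?_⟩
  · rw [hMM, Real.log_exp]
    have e1 : (S.card : ℝ) ≤ (⌊m / δ⌋₊ : ℝ) * N * (1 + (⌊1 + 8 * k * Real.exp (2 * m)⌋₊ : ℝ)) := by
      exact_mod_cast hS
    have e2 : (⌊m / δ⌋₊ : ℝ) ≤ m / δ := Nat.floor_le (by positivity)
    have e3 : (⌊1 + 8 * k * Real.exp (2 * m)⌋₊ : ℝ) ≤ 1 + 8 * k * Real.exp (2 * m) :=
      Nat.floor_le (by positivity)
    have e4 : 1 ≤ Real.exp (2 * m) := Real.one_le_exp (by linarith)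
    have e5 : Real.exp m ^ 2 = Real.exp (2 * m) := by
      rw [← Real.exp_nat_mul]
      norm_num
    rw [e5]
    calc (S.card : ℝ) ≤ (⌊m / δ⌋₊ : ℝ) * N * (1 + (⌊1 + 8 * k * Real.exp (2 * m)⌋₊ : ℝ)) := e1
      _ ≤ (m / δ) * (N + 1) * ((2 + 8 * k) * Real.exp (2 * m)) := by
        apply mul_le_mul
        · apply mul_le_mul e2 (by linarith) (by positivity) (by positivity)
        · nlinarith [e3, e4, (Nat.cast_nonneg k : (0:ℝ) ≤ k)]
        · positivity
        · positivity
      _ = (N + 1) * (2 + 8 * k) / δ * Real.exp (2 * m) * m := by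
        field_simp
  · have e1 : traceMeasure (blocks A Sᶜ).charpoly =
        Real.exp (Pool.Agent.W242.IM.mp (Pool.Agent.W242.IM.blk A Sᶜ).charpoly) :=
      Pool.Agent.W242.IM.MM_charpoly (hI Sᶜ)
    rw [e1, Pool.Agent.W242.IM.blk_charpoly, Finset.compl_eq_univ_sdiff, h5, Real.exp_zero]
  · have h6 := count_out A hA (Pool.Agent.W242.IM.pre Prod.fst (Finset.univ \ S)) h5
    refine h6.trans (Nat.mul_le_mul_left 2 ?_)
    have h7 : (Pool.Agent.W242.IM.pre (Prod.fst : Fin n × Fin k → Fin n) (Finset.univ \ S))ᶜ ⊆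
        S ×ˢ (Finset.univ : Finset (Fin k)) := by
      intro x hx
      rw [Finset.mem_compl, Pool.Agent.W242.IM.mem_pre, Finset.mem_sdiff] at hx
      rw [Finset.mem_product]
      refine ⟨?_, Finset.mem_univ _⟩
      by_contra hc
      exact hx ⟨Finset.mem_univ _, hc⟩
    refine (Finset.card_le_card h7).trans (le_of_eq ?_)
    rw [Finset.card_product, Finset.card_univ, Fintype.card_fin, mul_comm]

end

end Pool.Agent.Results.MP_7ab245_nt.DeletionTheorem
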