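import Mathlib
import Pool.Agent.X184.Leh.E2

/-!
# Dobrowolski's theorem with the defect of the discriminant in place of `log n`

There is an absolute constant `c > 0` such that every irreducible integer polynomial `f` of degree
`n` with `M(f) > 1` satisfies

  `log M(f) ≥ c (log (2 + B) / (1 + B)) ^ 3`,  where  `B = B(f) = (1/n) log⁺ (n ^ n / |disc f|)`.

`B(f)` measures, per zero, by how much `log |disc f|` falls short of `n log n` (Mahler's inequality
`|disc f| ≤ n ^ n M(f) ^ (2n - 2)` says that it cannot be much larger). The function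
`log (2 + x) / (1 + x)` decreases and `0 ≤ B(f) ≤ log n` as `|disc f| ≥ 1`. Hence

* (`dobrowolski`) Dobrowolski's theorem `log M(f) ≥ c (log (2 + log n) / (1 + log n)) ^ 3`, the best
  bound known for all `f` up to the constant, is the case of the smallest discriminants;
* (`of_large_discriminant`) Lehmer's inequality `M(f) ≥ exp (c / (1 + log C) ^ 3)` holds for all
  irreducible `f` with `|disc f| ≥ (n / C) ^ n`, for instance for the minimal polynomials of all the
  generators `α` (algebraic integers) of the number fields of degree `n` whose root discriminant is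
  at least `n / C`;

and the theorem interpolates between the two. There is no condition on the position of the zeros,
and quotients of zeros may be roots of unity.

Method. The kernel `-log |1 - x conj y|` is applied to the zeros (reflected into the unit disc and
contracted by `1 - κ / (2n)`) with the weight `T` and to their `p`-th powers, for the primes `p` of
size about `(1 + B) ^ 2 / log (2 + B)`, with the weight `1`. The self energy of the contracted zeros
is at most `n log n - log |disc f| + O(n (1 + log (1/κ)))`, and since `disc f` divides the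
discriminant of the polynomial of the `p`-th powers, the self energies of the `p`-th powers are not
larger (up to the Mahler measure); so the loss `n log n` in Dobrowolski's argument is replaced by
`n B(f)`. The mutual energies are bounded with the Frobenius congruence. The primes `p` for which the
field of the `p`-th powers is smaller are treated by averages over rotations, and `f = g (X ^ q)` by
`B(g (X ^ q)) = B(g)`.
-/

set_option autoImplicit false

open Polynomial

namespace Pool.Agent.Results.MP_7ab245_nt.DobrowolskiDiscriminant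

/-- `(1/n) log⁺ (n ^ n / |disc f|)` for a polynomial `f` of degree `n` -/
noncomputable def defect (f : ℤ[X]) : ℝ :=
  Real.posLog ((f.natDegree : ℝ) ^ f.natDegree / |(f.discr : ℝ)|) / f.natDegree

/-- **Dobrowolski's theorem with the defect of the discriminant.** -/
theorem result : ∃ c : ℝ, 0 < c ∧ ∀ f : ℤ[X], Irreducible f →
    1 < (f.map (Int.castRingHom ℂ)).mahlerMeasure →
      Real.exp (c * (Real.log (2 + defect f) / (1 + defect f)) ^ 3) ≤
        (f.map (Int.castRingHom ℂ)).mahlerMeasure := by
  obtain ⟨c, hc0, hc⟩ := Pool.Agent.X184.Leh.irr_caseA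
  refine ⟨c, hc0, ?_⟩
  intro f hf hM
  have h1 := hc f hf hM
  have hpos : 0 < (f.map (Int.castRingHom ℂ)).mahlerMeasure := by linarith
  rw [← Real.exp_log hpos]
  exact Real.exp_le_exp.mpr h1

/-- Dobrowolski's theorem. -/
theorem dobrowolski : ∃ c : ℝ, 0 < c ∧ ∀ f : ℤ[X], Irreducible f →
    1 < (f.map (Int.castRingHom ℂ)).mahlerMeasure → 0 < f.natDegree →
      Real.exp (c * (Real.log (2 + Real.log f.natDegree) / (1 + Real.log f.natDegree)) ^ 3) ≤
        (f.map (Int.castRingHom ℂ)).mahlerMeasure := by
  obtain ⟨c, hc0, hc⟩ := result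
  refine ⟨c, hc0, ?_⟩
  intro f hf hM hn
  refine le_trans ?_ (hc f hf hM)
  apply Real.exp_le_exp.mpr
  apply mul_le_mul_of_nonneg_left _ hc0.le
  have h0 : 0 ≤ defect f := Pool.Agent.X184.Leh.dfct_nonneg f
  have h1 : defect f ≤ Real.log f.natDegree := Pool.Agent.X184.Leh.dfct_le_log f hn
  apply pow_le_pow_left₀ (Pool.Agent.X184.Leh.ratio_nonneg (h0.trans h1))
  exact Pool.Agent.X184.Leh.ratio_anti h0 h1

/-- Lehmer's inequality for the irreducible polynomials with `|disc f| ≥ (n / C) ^ n`. -/
theorem of_large_discriminant : ∃ c : ℝ, 0 < c ∧ ∀ C : ℝ, 1 ≤ C → ∀ f : ℤ[X], Irreducible f →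
    1 < (f.map (Int.castRingHom ℂ)).mahlerMeasure →
    (f.natDegree : ℝ) ^ f.natDegree ≤ C ^ f.natDegree * |(f.discr : ℝ)| →
      Real.exp (c / (1 + Real.log C) ^ 3) ≤ (f.map (Int.castRingHom ℂ)).mahlerMeasure := by
  obtain ⟨c, hc0, hc⟩ := result
  refine ⟨c * Real.log 2 ^ 3, by have := Real.log_pos one_lt_two; positivity, ?_⟩
  intro C hC f hf hM hD
  refine le_trans ?_ (hc f hf hM)
  apply Real.exp_le_exp.mpr
  have hlC : 0 ≤ Real.log C := Real.log_nonneg hC
  have hB0 : 0 ≤ defect f := Pool.Agent.X184.Leh.dfct_nonneg f
  have hB : defect f ≤ Real.log C := by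
    unfold defect
    rcases Nat.eq_zero_or_pos f.natDegree with h0 | hpos
    · rw [h0]; simpa using hlC
    · have hn : (0:ℝ) < f.natDegree := by exact_mod_cast hpos
      rw [div_le_iff₀ hn]
      have hd : |(f.discr : ℝ)| ≠ 0 := by
        intro h
        rw [h, mul_zero] at hD
        have : 0 < (f.natDegree : ℝ) ^ f.natDegree := by positivity
        linarith
      have hd' : 0 < |(f.discr : ℝ)| := lt_of_le_of_ne (abs_nonneg _) (Ne.symm hd)
      have h1 : (f.natDegree : ℝ) ^ f.natDegree / |(f.discr : ℝ)| ≤ C ^ f.natDegree := by
        rw [div_le_iff₀ hd']; exact hD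
      have h2 := Real.posLog_le_posLog (div_nonneg (pow_nonneg hn.le f.natDegree) hd'.le) h1
      rw [Real.posLog_pow, Real.posLog_eq_log (x := C) (le_trans hC (le_abs_self C))] at h2
      linarith
  rw [mul_div_assoc, ← div_pow]
  apply mul_le_mul_of_nonneg_left _ hc0.le
  have hl2 := Real.log_pos one_lt_two
  apply pow_le_pow_left₀ (by positivity)
  refine le_trans ?_ (Pool.Agent.X184.Leh.ratio_anti hB0 hB)
  apply div_le_div_of_nonneg_right _ (by positivity)
  exact Real.log_le_log (by norm_num) (by linarith)

end Pool.Agent.Results.MP_7ab245_nt.DobrowolskiDiscriminant
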