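import Mathlib
import Pool.Agent.X184.SP.P

/-!
# Lehmer's problem for polynomials with a factor of small degree over `K(μ_∞)`

Let `p` be a prime, `r ≥ 1`, let `K` be an algebraic extension of `ℚ`, of finite or infinite degree,
and let `σ` be an endomorphism of `K` with

  `σ(x) ≡ x ^ (p ^ r)  (mod p)`  for all algebraic integers `x` of `K`.

For `σ = id` this says that `p` is unramified in `K` and that all the residue degrees above `p` divide
`r`; for `σ = id` and `r = 1` it says that `p` splits completely in `K`, so that `K` may be the field of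
all totally `p`-adic algebraic numbers. Every number field `K` satisfies this for all the primes `p`
unramified in `K`. Let `F` be a field generated over `K` by roots of unity, for instance `K(μ_∞)`.

Let `f` be an irreducible integer polynomial of degree `d` with Mahler measure `M(f) > 1`, which has
a factor of degree `D ≥ 1` over `F`. Let `c = 32 p ^ 6 (1 + p ^ (2 r))`. Then

(1) `1 / c ≤ D ^ 2 * (1/d) ∑ min ((log⁺ |z|) ^ 2, π log⁺ |z|)` if `f` is monic, the sum being over the
zeros `z` of `f`;

(2) `M(f) ≥ min (2, exp (d / (π c D ^ 2)))`;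

(3) `M(f) ≥ min (2, exp (1 / (π c C)))` if `D ^ 2 ≤ C d`.

The bounds depend only on `p` and `r`, and not otherwise on `K` and `F`; no field has to be normal
over `ℚ` or contained in the field of a zero of `f`. So Lehmer's inequality holds for the irreducible
polynomials of degree `d` which have a factor of degree at most `√(C d)` over `K(μ_∞)`, for every number
field `K`, with a constant depending on `K`, and for `K` the field of the totally `p`-adic numbers, with
a constant depending on `p`.

Method: Dimitrov's, over number fields. Let `P` be the reciprocal of the minimal polynomial over `F`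
of a zero of `f`, and `P_k` the polynomial whose reciprocal zeros are the `k`-th powers. By reduction
let `F = K(ζ_n)` be a number field, `p ^ 2 ∣ n`. If `p ^ 3 ∤ n`, then `σ` extends to `F` with
`σ(x) ^ (p ^ 2) ≡ x ^ (p ^ (r + 2)) (mod p)`, so that `(σ P)_{p ^ 3}` and `P_{p ^ (r + 3)}` are congruent
modulo `p ^ 2`, and the product of the `(p - 1)`-st power of the first and of the second has a `p`-th
root in `𝓞_F[[X]]`. The norm of the product of the Hankel determinants of all its conjugates is
estimated with the weighted energy inequality of the library (`Pool/Agent/H904L2`), where `2 D` spikes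
occur at each place; a tent of height `ℓ` on the circle has area at most `min (ℓ ^ 2, 2 π ℓ)`. If
`p ^ 3 ∣ n` and `F'` is generated by the `p`-th power of `ζ_n`, then the generator `τ` of the Galois group
of `F` over `F'` satisfies `τ(x) ^ p ≡ x ^ p (mod p)`, `P_{p ^ 2}` and `(τ P)_{p ^ 2}` are congruent
modulo `p ^ 2`, and the method either gives the bound or shows that the degree of the zero, or of its
product with a root of unity, does not increase when `F` is replaced by `F'`.
-/

set_option autoImplicit false

open Polynomial

namespace Pool.Agent.Results.MP_7ab245_nt.SmallRelativeDegree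

/-- the mean over the complex zeros `z` of `f` of `min ((log⁺ |z|) ^ 2, π log⁺ |z|)` -/
noncomputable def weight (f : ℤ[X]) : ℝ :=
  ((f.map (Int.castRingHom ℂ)).roots.map fun z =>
    min ((Real.posLog ‖z‖) ^ 2) (Real.pi * Real.posLog ‖z‖)).sum / f.natDegree

/-- the constant -/
noncomputable def const (p r : ℕ) : ℝ := 32 * (p : ℝ) ^ 6 * (1 + (p : ℝ) ^ (2 * r))

theorem result (p : ℕ) (hp : p.Prime) (r : ℕ) (hr : 1 ≤ r)
    (K : Type) [Field K] [CharZero K] [Algebra.IsAlgebraic ℚ K] (σ : K →+* K)
    (hσ : ∀ x : K, IsIntegral ℤ x → ∃ y : K, IsIntegral ℤ y ∧ σ x = x ^ (p ^ r) + p * y)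
    (F : Type) [Field F] [Algebra K F]
    (hF : IntermediateField.adjoin K {ζ : F | ∃ n : ℕ, 0 < n ∧ ζ ^ n = 1} = ⊤)
    (f : ℤ[X]) (hf : Irreducible f) (hM : 1 < (f.map (Int.castRingHom ℂ)).mahlerMeasure)
    (g : F[X]) (hg : g ∣ f.map (Int.castRingHom F)) (hD : 1 ≤ g.natDegree) :
    (f.Monic → 1 / const p r ≤ (g.natDegree : ℝ) ^ 2 * weight f) ∧
    min 2 (Real.exp (f.natDegree / (Real.pi * const p r * (g.natDegree : ℝ) ^ 2))) ≤
      (f.map (Int.castRingHom ℂ)).mahlerMeasure ∧
    ∀ C : ℝ, 0 < C → (g.natDegree : ℝ) ^ 2 ≤ C * f.natDegree →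
      min 2 (Real.exp (1 / (Real.pi * const p r * C))) ≤
        (f.map (Int.castRingHom ℂ)).mahlerMeasure := by
  classical
  have hπ := Real.pi_pos
  have hc : 0 < const p r := by
    have : (0:ℝ) < p := by exact_mod_cast hp.pos
    unfold const
    positivity
  haveI : Fact p.Prime := ⟨hp⟩
  haveI : CharZero F := charZero_of_injective_algebraMap (algebraMap K F).injective
  obtain ⟨F₀, iF₀, iF₀', hBd, hred⟩ := Pool.Agent.X184.SP.reduceP (p := p) (r := r) hr σ hσ hF g
  have hcst : Pool.Agent.X184.SP.cst p r = 1 / const p r := by
    unfold Pool.Agent.X184.SP.cst const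
    congr 1
    ring
  have hmon : ∀ f : ℤ[X], f.Monic → Irreducible f →
      1 < (f.map (Int.castRingHom ℂ)).mahlerMeasure → g ∣ f.map (Int.castRingHom F) →
      1 / const p r ≤ (g.natDegree : ℝ) ^ 2 * weight f := by
    intro f hfm hf hM hg
    obtain ⟨g₀, hg₀, hg₀f⟩ := hred f hg
    have h1 := Pool.Agent.X184.SZ.monicF' hBd f hfm hf hM g₀ hg₀f (by omega)
    rw [hg₀, hcst] at h1
    exact h1
  have hg0 : (0:ℝ) < g.natDegree := by exact_mod_cast hD
  have hd0 : 0 < f.natDegree := by
    have h1 : g.natDegree ≤ (f.map (Int.castRingHom F)).natDegree := by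
      apply natDegree_le_of_dvd hg
      rw [Ne, Polynomial.map_eq_zero_iff (Int.castRingHom F).injective_int]
      exact hf.ne_zero
    rw [natDegree_map_eq_of_injective (Int.castRingHom F).injective_int] at h1
    omega
  have hdR : (0:ℝ) < f.natDegree := by exact_mod_cast hd0
  -- the bound for monic polynomials
  have hmain : ∀ f : ℤ[X], f.Monic → Irreducible f →
      1 < (f.map (Int.castRingHom ℂ)).mahlerMeasure → g ∣ f.map (Int.castRingHom F) →
      0 < f.natDegree →
      Real.exp (f.natDegree / (Real.pi * const p r * (g.natDegree : ℝ) ^ 2)) ≤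
        (f.map (Int.castRingHom ℂ)).mahlerMeasure := by
    intro f hfm hf hM hg hd0
    have hdR : (0:ℝ) < f.natDegree := by exact_mod_cast hd0
    have h1 := hmon f hfm hf hM hg
    have h2 : weight f ≤ Real.pi * Real.log (f.map (Int.castRingHom ℂ)).mahlerMeasure /
        f.natDegree := by
      unfold weight
      apply div_le_div_of_nonneg_right _ hdR.le
      rw [← logMahlerMeasure_eq_log_MahlerMeasure,
        logMahlerMeasure_eq_log_leadingCoeff_add_sum_log_roots, (hfm.map _).leadingCoeff,
        norm_one, Real.log_one, zero_add, ← Multiset.sum_map_mul_left]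
      apply Multiset.sum_map_le_sum_map
      intro z _
      exact min_le_right _ _
    rw [← Real.le_log_iff_exp_le (by linarith)]
    rw [div_le_iff₀ (by positivity)]
    have h3 := h1.trans (mul_le_mul_of_nonneg_left h2 (sq_nonneg _))
    rw [← mul_div_assoc, div_le_div_iff₀ (by positivity) hdR] at h3
    linarith
  have hB : min 2 (Real.exp (f.natDegree / (Real.pi * const p r * (g.natDegree : ℝ) ^ 2))) ≤
      (f.map (Int.castRingHom ℂ)).mahlerMeasure := by
    by_cases h1 : 2 ≤ |f.leadingCoeff|
    · refine (min_le_left _ _).trans ?_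
      have h2 := leadingCoeff_le_mahlerMeasure (f.map (Int.castRingHom ℂ))
      rw [leadingCoeff_map_of_injective (Int.castRingHom ℂ).injective_int, eq_intCast,
        Complex.norm_intCast] at h2
      have h3 : (2:ℝ) ≤ |(f.leadingCoeff : ℝ)| := by exact_mod_cast h1
      linarith
    · push Not at h1
      have hlc0 : f.leadingCoeff ≠ 0 := leadingCoeff_ne_zero.mpr hf.ne_zero
      have h2 : f.leadingCoeff = 1 ∨ f.leadingCoeff = -1 := by
        have h3 : 0 < |f.leadingCoeff| := abs_pos.mpr hlc0
        have h4 : |f.leadingCoeff| = 1 := by omega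
        rcases abs_eq (by norm_num : (0:ℤ) ≤ 1) |>.mp h4 with h | h
        · exact Or.inl h
        · exact Or.inr h
      refine (min_le_right _ _).trans ?_
      rcases h2 with h2 | h2
      · exact hmain f h2 hf hM hg hd0
      · have h3 : (-f).Monic := by rw [Monic, leadingCoeff_neg, h2]; norm_num
        have h5 : ((-f).map (Int.castRingHom ℂ)).mahlerMeasure =
            (f.map (Int.castRingHom ℂ)).mahlerMeasure := by
          rw [Polynomial.map_neg, mahlerMeasure_eq_leadingCoeff_mul_prod_roots,
            mahlerMeasure_eq_leadingCoeff_mul_prod_roots, roots_neg, leadingCoeff_neg, norm_neg]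
        have h6 := hmain (-f) h3 ((Associated.neg_left (Associated.refl f)).symm.irreducible hf)
          (by rw [h5]; exact hM)
          (by rw [Polynomial.map_neg]; exact (dvd_neg).mpr hg) (by rw [natDegree_neg]; exact hd0)
        rw [h5, natDegree_neg] at h6
        exact h6
  refine ⟨fun hfm => hmon f hfm hf hM hg, hB, ?_⟩
  intro C hC hDC
  refine le_trans ?_ hB
  apply min_le_min le_rfl
  apply Real.exp_le_exp.mpr
  rw [div_le_div_iff₀ (by positivity) (by positivity), one_mul]
  have h1 : (0:ℝ) < Real.pi * const p r := by positivity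
  calc Real.pi * const p r * (g.natDegree : ℝ) ^ 2 ≤ Real.pi * const p r * (C * f.natDegree) :=
        mul_le_mul_of_nonneg_left hDC h1.le
    _ = _ := by ring

end Pool.Agent.Results.MP_7ab245_nt.SmallRelativeDegree
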